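import Mathlib

set_option autoImplicit false

open Finset

namespace Pool.Agent.H370Z.Split

/-- Gaussian binomial coefficient `[t+s choose t]_q`. -/
noncomputable def G (q : ℂ) : ℕ → ℕ → ℂ
  | 0, _ => 1
  | _ + 1, 0 => 1
  | t + 1, s + 1 => G q t (s + 1) + q ^ (t + 1) * G q (t + 1) s

@[simp] lemma G_zero_left (q : ℂ) (s : ℕ) : G q 0 s = 1 := by simp [G]
@[simp] lemma G_zero_right (q : ℂ) (t : ℕ) : G q t 0 = 1 := by cases t <;> simp [G]
lemma G_succ (q : ℂ) (t s : ℕ) :
    G q (t + 1) (s + 1) = G q t (s + 1) + q ^ (t + 1) * G q (t + 1) s := by simp [G]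

lemma G_key (q : ℂ) : ∀ n t s : ℕ, t + s = n →
    (q ^ (t + 1) - 1) * G q (t + 1) s = (q ^ (s + 1) - 1) * G q t (s + 1) := by
  intro n
  induction n with
  | zero =>
    intro t s h
    obtain ⟨rfl, rfl⟩ : t = 0 ∧ s = 0 := by omega
    simp
  | succ n ih =>
    intro t s h
    rcases t with _ | t <;> rcases s with _ | s
    · omega
    · have := ih 0 s (by omega)
      rw [G_succ]
      simp only [G_zero_left] at this ⊢
      linear_combination q * this
    · have := ih t 0 (by omega)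
      rw [G_succ]
      simp only [G_zero_right] at this ⊢
      linear_combination this
    · have h1 := ih (t + 1) s (by omega)
      have h2 := ih t (s + 1) (by omega)
      rw [G_succ q (t + 1) s, G_succ q t (s + 1)]
      linear_combination q ^ (t + 2) * h1 + h2

lemma G_key' (q : ℂ) (t s : ℕ) :
    (q ^ (t + 1) - 1) * G q (t + 1) s = (q ^ (t + s + 1) - 1) * G q t s := by
  rcases s with _ | s
  · simp
  · have h1 := G_key q _ t s rfl
    rw [G_succ]
    linear_combination q ^ (t + 1) * h1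

lemma G_symm (q : ℂ) : ∀ n t s : ℕ, t + s = n → G q t s = G q s t := by
  intro n
  induction n with
  | zero =>
    intro t s h
    obtain ⟨rfl, rfl⟩ : t = 0 ∧ s = 0 := by omega
    rfl
  | succ n ih =>
    intro t s h
    rcases t with _ | t <;> rcases s with _ | s
    · rfl
    · simp
    · simp
    · have h1 := ih (t + 1) s (by omega)
      have h2 := ih t (s + 1) (by omega)
      have h3 := G_key q _ t s rfl
      rw [G_succ q t s, G_succ q s t, ← h1, ← h2]
      linear_combination h3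

lemma sum_pascal (q : ℂ) (L : ℕ) (φ : ℕ → ℕ → ℂ) :
    ∑ p ∈ antidiagonal (L + 1), G q p.1 p.2 * φ p.1 p.2 =
      ∑ p ∈ antidiagonal L, G q p.1 p.2 * (φ (p.1 + 1) p.2 + q ^ p.1 * φ p.1 (p.2 + 1)) := by
  have h1 : ∀ p ∈ antidiagonal (L + 1), G q p.1 p.2 * φ p.1 p.2 =
      (if p.1 = 0 then 0 else G q (p.1 - 1) p.2 * φ p.1 p.2) +
      (if p.2 = 0 then 0 else q ^ p.1 * G q p.1 (p.2 - 1) * φ p.1 p.2) := by
    rintro ⟨t, s⟩ hp
    rw [HasAntidiagonal.mem_antidiagonal] at hp
    rcases t with _ | t <;> rcases s with _ | s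
    · simp at hp
    · simp
    · simp
    · simp only [G_succ, Nat.add_eq_zero_iff, one_ne_zero, and_false, if_false,
        Nat.add_sub_cancel]
      ring
  rw [sum_congr rfl h1, sum_add_distrib, Nat.sum_antidiagonal_succ, Nat.sum_antidiagonal_succ']
  simp only [if_true, Nat.add_eq_zero_iff, one_ne_zero, and_false, if_false, Nat.add_sub_cancel,
    zero_add]
  rw [← sum_add_distrib]
  refine sum_congr rfl fun p _ => by ring

/-- The Moebius function of the lattice of subspaces of a `k`-dimensional space. -/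
noncomputable def mu (q : ℂ) (k : ℕ) : ℂ := (-1) ^ k * q ^ (k.choose 2)

@[simp] lemma mu_zero (q : ℂ) : mu q 0 = 1 := by simp [mu]

lemma mu_succ (q : ℂ) (k : ℕ) : mu q (k + 1) = -q ^ k * mu q k := by
  unfold mu
  rw [Nat.choose_succ_succ' k 1, Nat.choose_one_right]
  ring

lemma mu_add (q : ℂ) (s k : ℕ) : mu q (s + k) = mu q s * mu q k * q ^ (s * k) := by
  induction k with
  | zero => simp
  | succ k ih => rw [← add_assoc, mu_succ, mu_succ, ih]; ring

lemma mu_ne_zero {q : ℂ} (hq : q ≠ 0) (k : ℕ) : mu q k ≠ 0 := by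
  unfold mu
  exact mul_ne_zero (pow_ne_zero _ (by norm_num)) (pow_ne_zero _ hq)

lemma sum_mu_zero (q : ℂ) (L : ℕ) :
    ∑ p ∈ antidiagonal (L + 1), G q p.1 p.2 * mu q p.1 = 0 := by
  rw [sum_pascal q L (fun t _ => mu q t)]
  refine sum_eq_zero fun p _ => ?_
  rw [mu_succ]; ring

lemma qbinom (q x y : ℂ) (L : ℕ) :
    ∑ p ∈ antidiagonal L, G q p.1 p.2 * (mu q p.2 * x ^ p.2 * y ^ p.1) =
      ∏ i ∈ range L, (y - x * q ^ i) := by
  induction L with
  | zero => simp
  | succ L ih =>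
    rw [sum_pascal q L (fun t s => mu q s * x ^ s * y ^ t), prod_range_succ, ← ih, sum_mul]
    refine sum_congr rfl fun p hp => ?_
    rw [HasAntidiagonal.mem_antidiagonal] at hp
    rw [mu_succ, ← hp]; ring

/-- The nontrivial character modulo three. -/
def chi (u : ℤ) : ℤ := if u % 3 = 1 then 1 else if u % 3 = 2 then -1 else 0

lemma chi_neg (u : ℤ) : chi (-u) = -chi u := by
  unfold chi
  split_ifs <;> omega

lemma chi_add_three (u : ℤ) : chi (u + 3) = chi u := by
  unfold chi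
  split_ifs <;> omega

/-- The functional attached to the Gaussian coefficients of size `L`. -/
noncomputable def Lam (q : ℂ) (L : ℕ) (f : ℤ → ℂ) : ℂ :=
  ∑ p ∈ antidiagonal L, G q p.1 p.2 * f ((p.1 : ℤ) - p.2)

lemma Lam_neg (q : ℂ) (L : ℕ) (f : ℤ → ℂ) : Lam q L (fun u => f (-u)) = Lam q L f := by
  unfold Lam
  rw [← Nat.sum_antidiagonal_swap]
  refine sum_congr rfl fun p _ => ?_
  simp only [Prod.fst_swap, Prod.snd_swap, neg_sub]
  rw [G_symm q _ p.2 p.1 rfl]

lemma Lam_congr (q : ℂ) (L : ℕ) (f g : ℤ → ℂ) (h : ∀ u, f u + f (-u) = g u + g (-u)) :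
    Lam q L f = Lam q L g := by
  have h1 : ∀ f : ℤ → ℂ, 2 * Lam q L f = Lam q L (fun u => f u + f (-u)) := by
    intro f
    rw [two_mul]
    nth_rewrite 2 [← Lam_neg]
    unfold Lam
    rw [← sum_add_distrib]
    refine sum_congr rfl fun p _ => by ring
  have h2 : 2 * Lam q L f = 2 * Lam q L g := by
    rw [h1, h1]; congr 1; funext u; exact h u
  exact mul_left_cancel₀ two_ne_zero h2

lemma Lam_main (r : ℂ) (hr : r ≠ 0) (L : ℕ) :
    Lam (r ^ 12) L (fun u => chi (u + 1) * r ^ ((u + 1) ^ 2)) =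
      (-1) ^ L * r ^ (3 * L ^ 2 + 1) := by
  induction L with
  | zero => simp [Lam, chi]
  | succ L ih =>
    have e1 : Lam (r ^ 12) (L + 1) (fun u => chi (u + 1) * r ^ ((u + 1) ^ 2)) =
        Lam (r ^ 12) (L + 1) (fun u => -(chi (u - 1) * r ^ ((u - 1) ^ 2))) := by
      rw [← Lam_neg]
      congr 1
      funext u
      rw [show -u + 1 = -(u - 1) by ring, chi_neg, neg_sq]
      push_cast; ring
    have e2 : Lam (r ^ 12) L (fun u => chi u * r ^ (u ^ 2)) = 0 := by
      rw [Lam_congr _ L _ (fun _ => 0)]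
      · simp [Lam]
      · intro u
        rw [chi_neg, neg_sq]; push_cast; ring
    have e3 : Lam (r ^ 12) (L + 1) (fun u => -(chi (u - 1) * r ^ ((u - 1) ^ 2))) =
        -Lam (r ^ 12) L (fun u => chi u * r ^ (u ^ 2)) -
          r ^ (6 * L + 3) * Lam (r ^ 12) L (fun u => chi (u + 1) * r ^ ((u + 1) ^ 2)) := by
      unfold Lam
      rw [sum_pascal (r ^ 12) L (fun t s => -(chi ((t : ℤ) - s - 1) * r ^ (((t : ℤ) - s - 1) ^ 2))),
        mul_sum, ← sum_neg_distrib, ← sum_sub_distrib]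
      refine sum_congr rfl fun p hp => ?_
      rw [HasAntidiagonal.mem_antidiagonal] at hp
      have a1 : ((p.1 + 1 : ℕ) : ℤ) - p.2 - 1 = (p.1 : ℤ) - p.2 := by push_cast; ring
      have a2 : chi ((p.1 : ℤ) - (p.2 + 1 : ℕ) - 1) = chi ((p.1 : ℤ) - p.2 + 1) := by
        rw [← chi_add_three]; congr 1; push_cast; ring
      have a3 : (r ^ 12) ^ p.1 * r ^ (((p.1 : ℤ) - (p.2 + 1 : ℕ) - 1) ^ 2) =
          r ^ (6 * L + 3) * r ^ (((p.1 : ℤ) - p.2 + 1) ^ 2) := by
        rw [← pow_mul, ← zpow_natCast, ← zpow_natCast, ← zpow_add₀ hr, ← zpow_add₀ hr]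
        congr 1
        rw [← hp]; push_cast; ring
      rw [a1, a2]
      linear_combination (-G (r ^ 12) p.1 p.2 * (chi ((p.1 : ℤ) - p.2 + 1) : ℂ)) * a3
    rw [e1, e3, e2, ih]
    ring

end Pool.Agent.H370Z.Split
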