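import Mathlib
import Pool.Agent.H370Z.Split.QBin

set_option autoImplicit false

open Finset Module Classical

namespace Pool.Agent.H370Z.Split

variable {F V : Type} [Field F] [Fintype F] [AddCommGroup V] [Module F V] [Fintype V]

lemma card_sub (P : Submodule F V) :
    ∑ v : V, (if v ∈ P then (1 : ℂ) else 0) = (Fintype.card F : ℂ) ^ finrank F P := by
  rw [sum_boole, ← Nat.cast_pow, ← Module.card_eq_pow_finrank (K := F) (V := P),
    Fintype.card_subtype]

lemma card_diff (P Q : Submodule F V) (h : P ≤ Q) :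
    ∑ v : V, (if v ∈ Q ∧ v ∉ P then (1 : ℂ) else 0) =
      (Fintype.card F : ℂ) ^ finrank F Q - (Fintype.card F : ℂ) ^ finrank F P := by
  rw [← card_sub, ← card_sub, ← sum_sub_distrib]
  refine sum_congr rfl fun v _ => ?_
  by_cases h1 : v ∈ P
  · simp [h1, h h1]
  · simp [h1]

lemma q_pow_ne (a b : ℕ) (h : a ≠ b) : (Fintype.card F : ℂ) ^ a - (Fintype.card F : ℂ) ^ b ≠ 0 := by
  rw [sub_ne_zero]
  intro h1
  apply h
  have h2 : (Fintype.card F) ^ a = (Fintype.card F) ^ b := by exact_mod_cast h1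
  exact Nat.pow_right_injective Fintype.one_lt_card h2

lemma q_ne_zero : (Fintype.card F : ℂ) ≠ 0 := by exact_mod_cast Fintype.card_ne_zero

/-- The number of subspaces `S` of dimension `d` with `B ≤ S` and `S ⊔ U₀ = U`. -/
noncomputable def cnt (B U₀ U : Submodule F V) (d : ℕ) : ℂ :=
  ∑ S : Submodule F V, if B ≤ S ∧ S ⊔ U₀ = U ∧ finrank F S = d then 1 else 0

omit [Fintype F] in
lemma dim_bounds {B U₀ U S : Submodule F V} (h0 : B ≤ U₀) (h1 : B ≤ S) (h2 : S ⊔ U₀ = U) :
    finrank F B + finrank F U ≤ finrank F S + finrank F U₀ ∧ finrank F S ≤ finrank F U := by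
  have h3 := Submodule.finrank_sup_add_finrank_inf_eq S U₀
  have h4 : finrank F B ≤ finrank F (S ⊓ U₀ : Submodule F V) :=
    Submodule.finrank_mono (le_inf h1 h0)
  have h5 : finrank F S ≤ finrank F U := Submodule.finrank_mono (h2 ▸ le_sup_left)
  rw [h2] at h3
  omega

omit [Fintype F] in
lemma cnt_small {B U₀ U : Submodule F V} (h0 : B ≤ U₀) (d : ℕ)
    (hd : d + finrank F U₀ < finrank F B + finrank F U) : cnt B U₀ U d = 0 := by
  refine sum_eq_zero fun S _ => if_neg ?_
  rintro ⟨h1, h2, h3⟩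
  have := (dim_bounds h0 h1 h2).1
  omega

lemma cnt_step (B U₀ U : Submodule F V) (d : ℕ) :
    ((Fintype.card F : ℂ) ^ d - (Fintype.card F : ℂ) ^ finrank F B) * cnt B U₀ U d =
      ∑ v : V, if v ∈ U ∧ v ∉ B then
        cnt (B ⊔ Submodule.span F {v}) (U₀ ⊔ Submodule.span F {v}) U d else 0 := by
  have h1 : ((Fintype.card F : ℂ) ^ d - (Fintype.card F : ℂ) ^ finrank F B) * cnt B U₀ U d =
      ∑ S : Submodule F V, ∑ v : V,
        if (B ≤ S ∧ S ⊔ U₀ = U ∧ finrank F S = d) ∧ (v ∈ S ∧ v ∉ B) then (1 : ℂ) else 0 := by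
    unfold cnt
    rw [mul_sum]
    refine sum_congr rfl fun S _ => ?_
    by_cases h : B ≤ S ∧ S ⊔ U₀ = U ∧ finrank F S = d
    · simp only [h, and_self, true_and, if_true, mul_one]
      rw [card_diff B S h.1, h.2.2]
    · simp [h]
  rw [h1, sum_comm]
  refine sum_congr rfl fun v _ => ?_
  by_cases hv : v ∈ U ∧ v ∉ B
  · rw [if_pos hv]
    unfold cnt
    refine sum_congr rfl fun S _ => if_congr ?_ rfl rfl
    constructor
    · rintro ⟨⟨a, b, c⟩, e, -⟩
      have e' : Submodule.span F {v} ≤ S := (Submodule.span_singleton_le_iff_mem v S).mpr e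
      refine ⟨sup_le a e', ?_, c⟩
      rw [sup_comm U₀, ← sup_assoc, sup_of_le_left e', b]
    · rintro ⟨a, b, c⟩
      have e' : Submodule.span F {v} ≤ S := le_sup_right.trans a
      refine ⟨⟨le_sup_left.trans a, ?_, c⟩, (Submodule.span_singleton_le_iff_mem v S).mp e', hv.2⟩
      rw [sup_comm U₀, ← sup_assoc, sup_of_le_left e'] at b
      exact b
  · rw [if_neg hv]
    refine sum_eq_zero fun S _ => if_neg ?_
    rintro ⟨⟨-, b, -⟩, e, f⟩
    exact hv ⟨(b ▸ le_sup_left : S ≤ U) e, f⟩

lemma cnt_eq : ∀ (n c t s : ℕ) (B U₀ U : Submodule F V), c + t = n → B ≤ U₀ → U₀ ≤ U →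
    finrank F U₀ = finrank F B + t + s → finrank F U = finrank F U₀ + c →
    cnt B U₀ U (finrank F B + c + t) =
      (Fintype.card F : ℂ) ^ (s * c) * G (Fintype.card F : ℂ) t s := by
  intro n
  induction n with
  | zero =>
    intro c t s B U₀ U hn h0 h1 e0 e1
    obtain ⟨rfl, rfl⟩ : c = 0 ∧ t = 0 := by omega
    have hU : U₀ = U := Submodule.eq_of_le_of_finrank_eq h1 (by omega)
    subst hU
    unfold cnt
    rw [sum_eq_single B]
    · simp [h0]
    · intro S _ hS
      refine if_neg ?_
      rintro ⟨a, -, c⟩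
      exact hS (Submodule.eq_of_le_of_finrank_eq a (by omega)).symm
    · simp
  | succ n ih =>
    intro c t s B U₀ U hn h0 h1 e0 e1
    set q : ℂ := (Fintype.card F : ℂ) with hq
    have hne := q_pow_ne (F := F) (finrank F B + c + t) (finrank F B) (by omega)
    apply mul_left_cancel₀ hne
    rw [cnt_step]
    have hA : ∀ v : V, v ∈ U₀ → v ∉ B →
        cnt (B ⊔ Submodule.span F {v}) (U₀ ⊔ Submodule.span F {v}) U (finrank F B + c + t) =
          if t = 0 then 0 else q ^ (s * c) * G q (t - 1) s := by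
      intro v hv hv'
      have e' : Submodule.span F {v} ≤ U₀ := (Submodule.span_singleton_le_iff_mem v U₀).mpr hv
      have d1 := Submodule.finrank_sup_span_singleton hv'
      rw [sup_of_le_left e']
      rcases t with _ | t
      · rw [if_pos rfl]
        exact cnt_small (sup_le h0 e') _ (by omega)
      · rw [if_neg (by omega), Nat.add_sub_cancel,
          ← ih c t s _ U₀ U (by omega) (sup_le h0 e') h1 (by omega) e1]
        congr 1; omega
    have hB : ∀ v : V, v ∈ U → v ∉ U₀ →
        cnt (B ⊔ Submodule.span F {v}) (U₀ ⊔ Submodule.span F {v}) U (finrank F B + c + t) =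
          q ^ (s * (c - 1)) * G q t s := by
      intro v hv hv'
      have hv'' : v ∉ B := fun h => hv' (h0 h)
      have e' : Submodule.span F {v} ≤ U := (Submodule.span_singleton_le_iff_mem v U).mpr hv
      have d1 := Submodule.finrank_sup_span_singleton hv'
      have d2 := Submodule.finrank_sup_span_singleton hv''
      have d3 : finrank F (U₀ ⊔ Submodule.span F {v} : Submodule F V) ≤ finrank F U :=
        Submodule.finrank_mono (sup_le h1 e')
      rw [← ih (c - 1) t s _ _ U (by omega) (sup_le_sup_right h0 _) (sup_le h1 e') (by omega)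
        (by omega)]
      congr 1; omega
    have hsum : ∀ v : V, (if v ∈ U ∧ v ∉ B then
        cnt (B ⊔ Submodule.span F {v}) (U₀ ⊔ Submodule.span F {v}) U (finrank F B + c + t)
          else 0) =
        (if v ∈ U₀ ∧ v ∉ B then (1 : ℂ) else 0) *
          (if t = 0 then 0 else q ^ (s * c) * G q (t - 1) s) +
        (if v ∈ U ∧ v ∉ U₀ then (1 : ℂ) else 0) * (q ^ (s * (c - 1)) * G q t s) := by
      intro v
      by_cases a : v ∈ U₀
      · by_cases b : v ∈ B
        · simp [a, b]
        · rw [if_pos ⟨h1 a, b⟩, hA v a b]; simp [a, b]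
      · by_cases b : v ∈ U
        · rw [if_pos ⟨b, fun h => a (h0 h)⟩, hB v b a]; simp [a, b]
        · simp [a, b]
    rw [sum_congr rfl fun v _ => hsum v, sum_add_distrib, ← sum_mul, ← sum_mul,
      card_diff B U₀ h0, card_diff U₀ U h1, e1, e0, ← hq]
    rcases t with _ | t <;> rcases c with _ | c
    · omega
    · simp only [if_true, G_zero_left, Nat.add_sub_cancel]; ring
    · have := G_key' q t s
      simp only [Nat.add_eq_zero_iff, one_ne_zero, and_false, if_false, Nat.add_sub_cancel]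
      linear_combination (-q ^ finrank F B) * this
    · have := G_key' q t s
      simp only [Nat.add_eq_zero_iff, one_ne_zero, and_false, if_false, Nat.add_sub_cancel]
      linear_combination (-q ^ finrank F B * q ^ (s * (c + 1))) * this

/-- Weighted form of the count. -/
lemma sum_dim (B U₀ U : Submodule F V) (h0 : B ≤ U₀) (h1 : U₀ ≤ U) (a c : ℕ)
    (e0 : finrank F U₀ = finrank F B + a) (e1 : finrank F U = finrank F U₀ + c) (φ : ℕ → ℂ) :
    (∑ S : Submodule F V, if B ≤ S ∧ S ⊔ U₀ = U then φ (finrank F S) else 0) =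
      ∑ p ∈ antidiagonal a, G (Fintype.card F : ℂ) p.1 p.2 *
        ((Fintype.card F : ℂ) ^ (p.2 * c) * φ (finrank F B + c + p.1)) := by
  have h2 : ∀ p ∈ antidiagonal a, G (Fintype.card F : ℂ) p.1 p.2 *
        ((Fintype.card F : ℂ) ^ (p.2 * c) * φ (finrank F B + c + p.1)) =
      ∑ S : Submodule F V, if B ≤ S ∧ S ⊔ U₀ = U ∧ finrank F S = finrank F B + c + p.1
        then φ (finrank F S) else 0 := by
    intro p hp
    rw [HasAntidiagonal.mem_antidiagonal] at hp
    have := cnt_eq _ c p.1 p.2 B U₀ U rfl h0 h1 (by omega) e1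
    rw [← mul_assoc, mul_comm (G _ _ _), ← this]
    unfold cnt
    rw [sum_mul]
    refine sum_congr rfl fun S _ => ?_
    split_ifs with h
    · rw [h.2.2, one_mul]
    · rw [zero_mul]
  rw [sum_congr rfl h2, sum_comm]
  refine sum_congr rfl fun S _ => ?_
  by_cases h : B ≤ S ∧ S ⊔ U₀ = U
  · have hb := dim_bounds h0 h.1 h.2
    rw [if_pos h, sum_eq_single (finrank F S - (finrank F B + c), finrank F U - finrank F S)]
    · rw [if_pos ⟨h.1, h.2, by simp only; omega⟩]
    · intro p hp hne
      rw [HasAntidiagonal.mem_antidiagonal] at hp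
      refine if_neg ?_
      rintro ⟨-, -, h3⟩
      apply hne
      ext <;> simp only <;> omega
    · intro hp
      exfalso
      apply hp
      rw [HasAntidiagonal.mem_antidiagonal]
      simp only
      omega
  · rw [if_neg h]
    exact (sum_eq_zero fun p _ => if_neg fun h' => h ⟨h'.1, h'.2.1⟩).symm

/-- Weisner's theorem for the subspace lattice. -/
lemma weisner (B U₀ : Submodule F V) (h0 : B ≤ U₀) (hne : ¬ U₀ ≤ B) (ψ : Submodule F V → ℂ) :
    (∑ S : Submodule F V, if B ≤ S then
      mu (Fintype.card F : ℂ) (finrank F S - finrank F B) * ψ (S ⊔ U₀) else 0) = 0 := by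
  set q : ℂ := (Fintype.card F : ℂ) with hq
  have h1 : ∀ S : Submodule F V,
      (if B ≤ S then mu q (finrank F S - finrank F B) * ψ (S ⊔ U₀) else 0) =
      ∑ U : Submodule F V,
        (if B ≤ S ∧ S ⊔ U₀ = U then mu q (finrank F S - finrank F B) else 0) * ψ U := by
    intro S
    rw [sum_eq_single (S ⊔ U₀)]
    · by_cases h : B ≤ S <;> simp [h]
    · intro U _ hU
      rw [if_neg fun h => hU h.2.symm, zero_mul]
    · simp
  rw [sum_congr rfl fun S _ => h1 S, sum_comm]
  refine sum_eq_zero fun U _ => ?_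
  rw [← sum_mul]
  by_cases hU : U₀ ≤ U
  · have hlt : finrank F B < finrank F U₀ :=
      Submodule.finrank_lt_finrank_of_lt (lt_of_le_not_ge h0 hne)
    obtain ⟨a, ha⟩ := Nat.exists_eq_add_of_lt hlt
    obtain ⟨c, hc⟩ := Nat.exists_eq_add_of_le (Submodule.finrank_mono hU)
    rw [sum_dim B U₀ U h0 hU (a + 1) c (by omega) hc (fun d => mu q (d - finrank F B)), ← hq]
    have h2 : ∀ p ∈ antidiagonal (a + 1), G q p.1 p.2 *
        (q ^ (p.2 * c) * mu q (finrank F B + c + p.1 - finrank F B)) =
        (mu q c * q ^ ((a + 1) * c)) * (G q p.1 p.2 * mu q p.1) := by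
      intro p hp
      rw [HasAntidiagonal.mem_antidiagonal] at hp
      rw [show finrank F B + c + p.1 - finrank F B = p.1 + c by omega, mu_add, ← hp]
      ring
    rw [sum_congr rfl h2, ← mul_sum, sum_mu_zero, mul_zero, zero_mul]
  · rw [sum_eq_zero, zero_mul]
    intro S _
    refine if_neg ?_
    rintro ⟨-, h⟩
    exact hU (h ▸ le_sup_right)

omit [Fintype F] in
lemma finrank_map_add (f : V →ₗ[F] V) (U : Submodule F V) :
    finrank F (U.map f) + finrank F (U ⊓ LinearMap.ker f : Submodule F V) = finrank F U := by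
  have h := LinearMap.finrank_range_add_finrank_ker (f.domRestrict U)
  rw [LinearMap.range_domRestrict, LinearMap.ker_domRestrict] at h
  rw [← h]
  congr 1
  rw [← Submodule.finrank_map_subtype_eq U, Submodule.map_comap_subtype]

omit [Fintype F] in
lemma finrank_sup_map (f : V →ₗ[F] V) (U P : Submodule F V) :
    finrank F (P ⊔ U.map f : Submodule F V) + finrank F (U ⊓ P.comap f : Submodule F V) =
      finrank F P + finrank F U := by
  have h1 := Submodule.finrank_sup_add_finrank_inf_eq P (U.map f)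
  have h2 := finrank_map_add f U
  have h3 := finrank_map_add f (U ⊓ P.comap f)
  have h4 : (U ⊓ P.comap f).map f = P ⊓ U.map f := by
    rw [Submodule.map_inf_eq_map_inf_comap.symm, inf_comm]
  have h5 : U ⊓ P.comap f ⊓ LinearMap.ker f = U ⊓ LinearMap.ker f := by
    rw [inf_assoc, inf_of_le_right (LinearMap.ker_le_comap f)]
  rw [h4, h5] at h3
  omega

omit [Fintype F] [Fintype V] in
lemma sup_map_top_iff (f : V →ₗ[F] V) (U P S : Submodule F V) (h : S ≤ U) :
    P ⊔ S.map f = ⊤ ↔ P ⊔ U.map f = ⊤ ∧ S ⊔ (U ⊓ P.comap f) = U := by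
  constructor
  · intro h1
    refine ⟨top_le_iff.mp (h1 ▸ sup_le_sup_left (Submodule.map_mono h) P), ?_⟩
    refine le_antisymm (sup_le h inf_le_left) fun u hu => ?_
    have h2 : f u ∈ P ⊔ S.map f := h1 ▸ Submodule.mem_top
    obtain ⟨p, hp, y, ⟨s, hs, rfl⟩, e⟩ := Submodule.mem_sup.mp h2
    refine Submodule.mem_sup.mpr ⟨s, hs, u - s, ⟨U.sub_mem hu (h hs), ?_⟩, by abel⟩
    have : f (u - s) = p := by rw [map_sub, ← e]; abel
    simpa [this] using hp
  · rintro ⟨h1, h2⟩
    rw [← top_le_iff, ← h1]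
    refine sup_le le_sup_left ?_
    rw [← h2, Submodule.map_sup]
    refine sup_le le_sup_right (le_trans ?_ le_sup_left)
    exact (Submodule.map_mono inf_le_right).trans (Submodule.map_comap_le f P)

end Pool.Agent.H370Z.Split
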