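import Mathlib

set_option autoImplicit false

namespace Pool.Agent.H370Z.Split

variable {F V : Type} [Field F] [AddCommGroup V] [Module F V]

/-- The image `TW` of a subspace `W`. -/
def img (T : V →ₗ[F] V) (W : Submodule F V) : Submodule F V := W.map T

/-- The dimension of a subspace. -/
noncomputable def dim (W : Submodule F V) : ℕ := Module.finrank F W

/-- `V = A ⊕ B ⊕ C`. -/
def IsDirectSum (A B C : Submodule F V) : Prop :=
  Disjoint A B ∧ Disjoint (A ⊔ B) C ∧ A ⊔ B ⊔ C = ⊤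

/-- `σ^T_{(m,m,m)}`: the number of `m`-dimensional subspaces `W` with `V = W ⊕ TW ⊕ T²W`. -/
noncomputable def sigma (m : ℕ) (T : V →ₗ[F] V) : ℕ :=
  Nat.card {W : Submodule F V // dim W = m ∧ IsDirectSum W (img T W) (img T (img T W))}

/-- `0 ≤ A ≤ B ≤ C` is a chain of `T`-stable subspaces with dimension jumps `j₁, j₂, j₃`. -/
def IsFlag (T : V →ₗ[F] V) (j₁ j₂ j₃ : ℕ) (A B C : Submodule F V) : Prop :=
  A ≤ B ∧ B ≤ C ∧ img T A ≤ A ∧ img T B ≤ B ∧ img T C ≤ C ∧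
    dim A = j₁ ∧ dim B = dim A + j₂ ∧ dim C = dim B + j₃

/-- `Y^T_{(j₁,j₂,j₃)}`: the number of such chains. -/
noncomputable def flagCount (T : V →ₗ[F] V) (j₁ j₂ j₃ : ℕ) : ℕ :=
  Nat.card {W : Submodule F V × Submodule F V × Submodule F V //
    IsFlag T j₁ j₂ j₃ W.1 W.2.1 W.2.2}

/-- The function `g(j₁,j₂,j₃)` of the problem (it does not depend on `j₁`). -/
def gfun (j₂ j₃ : ℕ) : ℕ := if (j₂ + 2 * j₃) % 3 = 2 then 2 * j₂ + j₃ else j₂ + 2 * j₃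

/-- One third of the bracket `C(j₁,2) + C(j₂,2) + C(j₃,2) - g(j₁,j₂,j₃)`, which is an integer
divisible by three when `3 ∣ j₁ + j₂ + j₃`. -/
def third (j₁ j₂ j₃ : ℕ) : ℤ :=
  ((j₁.choose 2 : ℤ) + (j₂.choose 2 : ℤ) + (j₃.choose 2 : ℤ) - (gfun j₂ j₃ : ℤ)) / 3

/-- The triples of nonnegative integers with sum `n`. -/
def triples (n : ℕ) : Finset (ℕ × ℕ × ℕ) :=
  (Finset.range (n + 1) ×ˢ Finset.range (n + 1) ×ˢ Finset.range (n + 1)).filter
    (fun j => j.1 + j.2.1 + j.2.2 = n)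

/-- The sum over `j₁ + j₂ + j₃ = 3m` of `ω^(j₂+2j₃) q^(a + third j₁ j₂ j₃) Y^T_{(j₁,j₂,j₃)}`, where
`q` is the number of elements of `F`. The problem's right side is the case `a = m² - m`. -/
noncomputable def flagSum (m : ℕ) (T : V →ₗ[F] V) (ω : ℂ) (a : ℤ) : ℂ :=
  ∑ j ∈ triples (3 * m),
    ω ^ (j.2.1 + 2 * j.2.2) * (Nat.card F : ℂ) ^ (a + third j.1 j.2.1 j.2.2) *
      (flagCount T j.1 j.2.1 j.2.2 : ℂ)

end Pool.Agent.H370Z.Split
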