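import Mathlib
import Pool.Agent.H370Z.Split.Count

set_option autoImplicit false

open Finset Module Classical

namespace Pool.Agent.H370Z.Split

variable {F V : Type} [Field F] [Fintype F] [AddCommGroup V] [Module F V] [Fintype V]

/-- Signed count of the subspaces `U ≥ S` with `U + TU = V`. -/
noncomputable def Gsum (T : V →ₗ[F] V) (S : Submodule F V) : ℂ :=
  ∑ U : Submodule F V, if S ≤ U ∧ U ⊔ U.map T = ⊤ then
    mu (Fintype.card F : ℂ) (finrank F U - finrank F S) else 0

lemma stepA1 (T : V →ₗ[F] V) (w : ℂ) (S : Submodule F V) :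
    (∑ U : Submodule F V, if S ≤ U then mu (Fintype.card F : ℂ) (finrank F U - finrank F S) *
      (w * if U ⊔ U.map T ⊔ S.map (T ∘ₗ T) = ⊤ then 1 else 0) else 0) =
      if S.map T ≤ S then w * Gsum T S else 0 := by
  by_cases hS : S.map T ≤ S
  · rw [if_pos hS]
    unfold Gsum
    rw [mul_sum]
    refine sum_congr rfl fun U _ => ?_
    by_cases hU : S ≤ U
    · have : U ⊔ U.map T ⊔ S.map (T ∘ₗ T) = U ⊔ U.map T := by
        refine sup_of_le_left ?_
        rw [Submodule.map_comp]
        exact (Submodule.map_mono (hS.trans hU)).trans le_sup_right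
      rw [this]
      by_cases h2 : U ⊔ U.map T = ⊤ <;> simp [hU, h2, mul_comm]
    · simp [hU]
  · rw [if_neg hS]
    refine Eq.trans ?_ (weisner S (S ⊔ S.map T) le_sup_left (fun h => hS (le_sup_right.trans h))
      (fun W => w * if W ⊔ W.map T = ⊤ then 1 else 0))
    refine sum_congr rfl fun U _ => ?_
    by_cases hU : S ≤ U
    · have : U ⊔ U.map T ⊔ S.map (T ∘ₗ T) =
          U ⊔ (S ⊔ S.map T) ⊔ (U ⊔ (S ⊔ S.map T)).map T := by
        rw [← sup_assoc U, sup_of_le_left hU, Submodule.map_sup, Submodule.map_comp,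
          ← sup_assoc (U ⊔ S.map T), sup_assoc U (S.map T),
          sup_of_le_right (Submodule.map_mono hU : S.map T ≤ U.map T)]
      rw [this]
    · simp [hU]

lemma stepA2 (T : V →ₗ[F] V) (m : ℕ) (hn : finrank F V = 3 * m) (U : Submodule F V) :
    (∑ S : Submodule F V, if S ≤ U then mu (Fintype.card F : ℂ) (finrank F U - finrank F S) *
      ((Fintype.card F : ℂ) ^ (m * finrank F S) *
        if U ⊔ U.map T ⊔ S.map (T ∘ₗ T) = ⊤ then 1 else 0) else 0) =
      (Fintype.card F : ℂ) ^ (m * m) *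
        if finrank F U = m ∧ U ⊔ U.map T ⊔ U.map (T ∘ₗ T) = ⊤ then 1 else 0 := by
  set q : ℂ := (Fintype.card F : ℂ) with hq
  by_cases hU : U ⊔ U.map T ⊔ U.map (T ∘ₗ T) = ⊤
  · obtain ⟨U₀, hU₀⟩ : ∃ U₀, U₀ = U ⊓ (U ⊔ U.map T).comap (T ∘ₗ T) := ⟨_, rfl⟩
    have hle : U₀ ≤ U := hU₀ ▸ inf_le_left
    have h1 : ∀ S : Submodule F V, (if S ≤ U then mu q (finrank F U - finrank F S) *
        (q ^ (m * finrank F S) * if U ⊔ U.map T ⊔ S.map (T ∘ₗ T) = ⊤ then 1 else 0) else 0) =
        if ⊥ ≤ S ∧ S ⊔ U₀ = U then mu q (finrank F U - finrank F S) * q ^ (m * finrank F S)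
          else 0 := by
      intro S
      by_cases hS : S ≤ U
      · have hiff := sup_map_top_iff (T ∘ₗ T) U (U ⊔ U.map T) S hS
        rw [← hU₀] at hiff
        rw [if_pos hS]
        by_cases h2 : S ⊔ U₀ = U
        · rw [if_pos (hiff.mpr ⟨hU, h2⟩), if_pos ⟨bot_le, h2⟩, mul_one]
        · rw [if_neg fun h => h2 (hiff.mp h).2, if_neg fun h => h2 (And.right h), mul_zero,
            mul_zero]
      · rw [if_neg hS, if_neg]
        rintro ⟨-, h⟩
        exact hS (h ▸ le_sup_left)
    obtain ⟨c, hc⟩ := Nat.exists_eq_add_of_le (Submodule.finrank_mono hle)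
    rw [sum_congr rfl fun S _ => h1 S,
      sum_dim ⊥ U₀ U bot_le hle (finrank F U₀) c (by simp) hc
        (fun d => mu q (finrank F U - d) * q ^ (m * d)), ← hq]
    have h2 : ∀ p ∈ antidiagonal (finrank F U₀), G q p.1 p.2 * (q ^ (p.2 * c) *
        (mu q (finrank F U - (finrank F (⊥ : Submodule F V) + c + p.1)) *
          q ^ (m * (finrank F (⊥ : Submodule F V) + c + p.1)))) =
        q ^ (m * c) * (G q p.1 p.2 * (mu q p.2 * (q ^ c) ^ p.2 * (q ^ m) ^ p.1)) := by
      intro p hp
      rw [HasAntidiagonal.mem_antidiagonal] at hp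
      rw [finrank_bot, show finrank F U - (0 + c + p.1) = p.2 by omega]
      ring
    rw [sum_congr rfl h2, ← mul_sum, qbinom]
    have d1 := finrank_sup_map (T ∘ₗ T) U (U ⊔ U.map T)
    rw [hU, finrank_top, ← hU₀] at d1
    have d2 := finrank_sup_map T (U ⊔ U.map T) (U ⊔ U.map T)
    have e2 : U ⊔ U.map T ⊔ (U ⊔ U.map T).map T = ⊤ := by
      rw [Submodule.map_sup, ← sup_assoc, sup_assoc U, sup_idem, ← Submodule.map_comp, hU]
    rw [e2, finrank_top] at d2
    have d3 : finrank F U ≤
        finrank F ((U ⊔ U.map T) ⊓ (U ⊔ U.map T).comap T : Submodule F V) :=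
      Submodule.finrank_mono (le_inf le_sup_left
        (Submodule.map_le_iff_le_comap.mp le_sup_right))
    have d4 := Submodule.finrank_sup_add_finrank_inf_eq U (U.map T)
    have d5 := Submodule.finrank_map_le T U
    by_cases hm : finrank F U = m
    · have a0 : finrank F U₀ = 0 := by omega
      have c0 : c = m := by omega
      rw [if_pos ⟨hm, hU⟩, a0, c0]; simp
    · rw [if_neg fun h => hm (And.left h), mul_zero,
        prod_eq_zero (i := m - c) (mem_range.mpr (by omega)), mul_zero]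
      rw [← pow_add, show c + (m - c) = m by omega, sub_self]
  · rw [if_neg fun h => hU (And.right h), mul_zero]
    refine sum_eq_zero fun S _ => ?_
    by_cases hS : S ≤ U
    · rw [if_pos hS, if_neg fun h => hU ((sup_map_top_iff _ U _ S hS).mp h).1, mul_zero, mul_zero]
    · rw [if_neg hS]

lemma stepA (T : V →ₗ[F] V) (m : ℕ) (hn : finrank F V = 3 * m) :
    (Fintype.card F : ℂ) ^ (m * m) * (∑ U : Submodule F V,
        if finrank F U = m ∧ U ⊔ U.map T ⊔ U.map (T ∘ₗ T) = ⊤ then 1 else 0) =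
      ∑ S : Submodule F V,
        if S.map T ≤ S then (Fintype.card F : ℂ) ^ (m * finrank F S) * Gsum T S else 0 := by
  rw [mul_sum, ← sum_congr rfl fun U _ => stepA2 T m hn U, sum_comm]
  exact sum_congr rfl fun S _ => stepA1 T _ S

lemma stepB1 (T : V →ₗ[F] V) (w : ℂ) (X : Submodule F V) :
    (∑ U : Submodule F V, if X ≤ U then mu (Fintype.card F : ℂ) (finrank F U - finrank F X) *
      (w * if U ⊔ X.map T = ⊤ then 1 else 0) else 0) =
      if X.map T ≤ X then mu (Fintype.card F : ℂ) (finrank F V - finrank F X) * w else 0 := by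
  by_cases hX : X.map T ≤ X
  · rw [if_pos hX, sum_eq_single ⊤]
    · simp
    · intro U _ hU
      by_cases h : X ≤ U
      · rw [if_pos h, sup_of_le_left (hX.trans h), if_neg hU, mul_zero, mul_zero]
      · rw [if_neg h]
    · simp
  · rw [if_neg hX]
    refine Eq.trans ?_ (weisner X (X ⊔ X.map T) le_sup_left (fun h => hX (le_sup_right.trans h))
      (fun W => w * if W = ⊤ then 1 else 0))
    refine sum_congr rfl fun U _ => ?_
    by_cases hU : X ≤ U
    · rw [← sup_assoc U, sup_of_le_left hU]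
    · simp [hU]

lemma stepB2 (T : V →ₗ[F] V) (S : Submodule F V) (hS : S.map T ≤ S) (h : ℕ → ℂ) (C : ℂ)
    (H : ∀ L k : ℕ, finrank F S + L + 2 * k = finrank F V →
      ∑ p ∈ antidiagonal L, G (Fintype.card F : ℂ) p.1 p.2 * ((Fintype.card F : ℂ) ^ (p.2 * k) *
        (mu (Fintype.card F : ℂ) p.2 * h (finrank F S + k + p.1))) =
        C * mu (Fintype.card F : ℂ) (L + k))
    (U : Submodule F V) :
    (∑ X : Submodule F V, if S ≤ X then
      (if X ≤ U then mu (Fintype.card F : ℂ) (finrank F U - finrank F X) *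
        (h (finrank F X) * if U ⊔ X.map T = ⊤ then 1 else 0) else 0) else 0) =
      C * if S ≤ U ∧ U ⊔ U.map T = ⊤ then
        mu (Fintype.card F : ℂ) (finrank F U - finrank F S) else 0 := by
  set q : ℂ := (Fintype.card F : ℂ) with hq
  by_cases hU : S ≤ U ∧ U ⊔ U.map T = ⊤
  · obtain ⟨U₀, hU₀⟩ : ∃ U₀, U₀ = U ⊓ U.comap T := ⟨_, rfl⟩
    have hle : U₀ ≤ U := hU₀ ▸ inf_le_left
    have h1 : ∀ X : Submodule F V, (if S ≤ X then
        (if X ≤ U then mu q (finrank F U - finrank F X) *
          (h (finrank F X) * if U ⊔ X.map T = ⊤ then 1 else 0) else 0) else 0) =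
        if S ≤ X ∧ X ⊔ U₀ = U then mu q (finrank F U - finrank F X) * h (finrank F X)
          else 0 := by
      intro X
      by_cases h0 : S ≤ X
      · rw [if_pos h0]
        by_cases hX : X ≤ U
        · have hiff := sup_map_top_iff T U U X hX
          rw [← hU₀] at hiff
          rw [if_pos hX]
          by_cases h2 : X ⊔ U₀ = U
          · rw [if_pos (hiff.mpr ⟨hU.2, h2⟩), if_pos ⟨h0, h2⟩, mul_one]
          · rw [if_neg fun h => h2 (hiff.mp h).2, if_neg fun h => h2 (And.right h), mul_zero,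
              mul_zero]
        · rw [if_neg hX, if_neg]
          rintro ⟨-, h⟩
          exact hX (h ▸ le_sup_left)
      · rw [if_neg h0, if_neg fun h => h0 (And.left h)]
    have hSU₀ : S ≤ U₀ := hU₀ ▸ le_inf hU.1 (Submodule.map_le_iff_le_comap.mp (hS.trans hU.1))
    obtain ⟨k, hk⟩ := Nat.exists_eq_add_of_le (Submodule.finrank_mono hle)
    obtain ⟨L, hL⟩ := Nat.exists_eq_add_of_le (Submodule.finrank_mono hSU₀)
    have d1 := finrank_sup_map T U U
    rw [hU.2, finrank_top, ← hU₀] at d1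
    rw [sum_congr rfl fun X _ => h1 X,
      sum_dim S U₀ U hSU₀ hle L k hL hk (fun d => mu q (finrank F U - d) * h d), ← hq,
      if_pos hU, show finrank F U - finrank F S = L + k by omega, ← H L k (by omega)]
    refine sum_congr rfl fun p hp => ?_
    rw [HasAntidiagonal.mem_antidiagonal] at hp
    rw [show finrank F U - (finrank F S + k + p.1) = p.2 by omega]
  · rw [if_neg hU, mul_zero]
    refine sum_eq_zero fun X _ => ?_
    by_cases h0 : S ≤ X
    · rw [if_pos h0]
      by_cases hX : X ≤ U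
      · rw [if_pos hX, if_neg fun h => hU ⟨h0.trans hX, ((sup_map_top_iff _ U _ X hX).mp h).1⟩,
          mul_zero, mul_zero]
      · rw [if_neg hX]
    · rw [if_neg h0]

lemma stepB (T : V →ₗ[F] V) (S : Submodule F V) (hS : S.map T ≤ S) (h : ℕ → ℂ) (C : ℂ)
    (H : ∀ L k : ℕ, finrank F S + L + 2 * k = finrank F V →
      ∑ p ∈ antidiagonal L, G (Fintype.card F : ℂ) p.1 p.2 * ((Fintype.card F : ℂ) ^ (p.2 * k) *
        (mu (Fintype.card F : ℂ) p.2 * h (finrank F S + k + p.1))) =
        C * mu (Fintype.card F : ℂ) (L + k)) :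
    (∑ X : Submodule F V, if S ≤ X ∧ X.map T ≤ X then
      mu (Fintype.card F : ℂ) (finrank F V - finrank F X) * h (finrank F X) else 0) =
      C * Gsum T S := by
  unfold Gsum
  rw [mul_sum, ← sum_congr rfl fun U _ => stepB2 T S hS h C H U, sum_comm]
  refine sum_congr rfl fun X _ => ?_
  by_cases h0 : S ≤ X
  · simp only [h0, true_and, if_true]
    exact (stepB1 T _ X).symm
  · simp [h0]

theorem universal (T : V →ₗ[F] V) (m : ℕ) (hn : finrank F V = 3 * m) (c : ℕ → ℕ → ℕ → ℂ)
    (H : ∀ j L k : ℕ, j + L + 2 * k = 3 * m →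
      (Fintype.card F : ℂ) ^ (m * m) *
        ∑ p ∈ antidiagonal L, G (Fintype.card F : ℂ) p.1 p.2 * c j (k + p.1) (k + p.2) =
      (Fintype.card F : ℂ) ^ (m * j) * (mu (Fintype.card F : ℂ) (L + k) *
        mu (Fintype.card F : ℂ) k)) :
    (∑ U : Submodule F V,
        if finrank F U = m ∧ U ⊔ U.map T ⊔ U.map (T ∘ₗ T) = ⊤ then (1 : ℂ) else 0) =
      ∑ S : Submodule F V, ∑ X : Submodule F V, if S.map T ≤ S ∧ S ≤ X ∧ X.map T ≤ X then
        c (finrank F S) (finrank F X - finrank F S) (3 * m - finrank F X) else 0 := by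
  set q : ℂ := (Fintype.card F : ℂ) with hq
  have hq0 : q ≠ 0 := q_ne_zero
  apply mul_left_cancel₀ (pow_ne_zero (m * m) hq0)
  rw [stepA T m hn, mul_sum]
  refine sum_congr rfl fun S _ => ?_
  by_cases hS : S.map T ≤ S
  · rw [if_pos hS, ← stepB T S hS (fun d => q ^ (m * m) *
      c (finrank F S) (d - finrank F S) (3 * m - d) / mu q (3 * m - d)), mul_sum]
    · refine sum_congr rfl fun X _ => ?_
      simp only [hS, true_and]
      split_ifs with hX
      · rw [hn, ← hq]
        field_simp [mu_ne_zero hq0]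
      · rw [mul_zero]
    · intro L k hLk
      have h1 := H (finrank F S) L k (by omega)
      apply mul_right_cancel₀ (mu_ne_zero hq0 k)
      rw [← hq, mul_assoc, ← h1, mul_sum, sum_mul]
      refine sum_congr rfl fun p hp => ?_
      rw [HasAntidiagonal.mem_antidiagonal] at hp
      rw [show finrank F S + k + p.1 - finrank F S = k + p.1 by omega,
        show 3 * m - (finrank F S + k + p.1) = k + p.2 by omega, add_comm k p.2, mu_add]
      have := mu_ne_zero hq0 k
      have := mu_ne_zero hq0 p.2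
      field_simp
  · simp [hS]

end Pool.Agent.H370Z.Split
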