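import Mathlib
import Pool.Agent.H370Z.Split.Defs
import Pool.Agent.H370Z.Split.Main

set_option autoImplicit false

open Finset Module Classical

namespace Pool.Agent.H370Z.Split

lemma two_choose (n : ℕ) : 2 * (n.choose 2 : ℤ) = n * (n - 1) := by
  induction n with
  | zero => simp
  | succ n ih =>
    rw [Nat.choose_succ_succ' n 1, Nat.choose_one_right]
    push_cast
    linear_combination ih

lemma three_third (m j₁ j₂ j₃ : ℕ) (h : j₁ + j₂ + j₃ = 3 * m) :
    3 * third j₁ j₂ j₃ =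
      (j₁.choose 2 : ℤ) + (j₂.choose 2 : ℤ) + (j₃.choose 2 : ℤ) - (gfun j₂ j₃ : ℤ) := by
  unfold third
  apply Int.mul_ediv_cancel'
  have h2 : (3 : ℤ) ∣ 2 * ((j₁.choose 2 : ℤ) + (j₂.choose 2 : ℤ) + (j₃.choose 2 : ℤ) -
      (gfun j₂ j₃ : ℤ)) := by
    have e : 2 * ((j₁.choose 2 : ℤ) + (j₂.choose 2 : ℤ) + (j₃.choose 2 : ℤ) - (gfun j₂ j₃ : ℤ)) =
        j₁ * (j₁ - 1) + j₂ * (j₂ - 1) + j₃ * (j₃ - 1) - 2 * (gfun j₂ j₃ : ℤ) := by
      linear_combination two_choose j₁ + two_choose j₂ + two_choose j₃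
    have e1 : (j₁ : ℤ) = 3 * m - j₂ - j₃ := by omega
    rw [e, e1]
    obtain ⟨a, x, hx, rfl⟩ : ∃ a x, x < 3 ∧ j₂ = 3 * a + x :=
      ⟨j₂ / 3, j₂ % 3, by omega, by omega⟩
    obtain ⟨b, y, hy, rfl⟩ : ∃ b y, y < 3 ∧ j₃ = 3 * b + y :=
      ⟨j₃ / 3, j₃ % 3, by omega, by omega⟩
    have hg : (3 * a + x + 2 * (3 * b + y)) % 3 = (x + 2 * y) % 3 := by omega
    unfold gfun
    rw [hg]
    apply (ZMod.intCast_zmod_eq_zero_iff_dvd _ 3).mp
    have h3 : (3 : ZMod 3) = 0 := rfl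
    interval_cases x <;> interval_cases y <;> norm_num <;> simp only [h3] <;> norm_num <;> rfl
  omega

/-- The weight attached to `u = j₂ - j₃`. -/
noncomputable def wt (ω r : ℂ) (u : ℤ) : ℂ :=
  if u % 3 = 2 then ω ^ 2 * r ^ (u ^ 2 - 2 * u) else
    if u % 3 = 1 then ω * r ^ (u ^ 2 + 2 * u) else r ^ (u ^ 2 + 2 * u)

lemma Lam_wt (ω r : ℂ) (hω : ω + ω ^ 2 = -1) (hr : r ≠ 0) (L : ℕ) :
    Lam (r ^ 12) L (wt ω r) = (-1) ^ L * r ^ (3 * L ^ 2) := by
  have h1 : Lam (r ^ 12) L (wt ω r) =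
      Lam (r ^ 12) L (fun u => r⁻¹ * (chi (u + 1) * r ^ ((u + 1) ^ 2))) := by
    apply Lam_congr
    intro u
    have a1 : r ^ ((u + 1) ^ 2) = r * r ^ (u ^ 2 + 2 * u) := by
      rw [← zpow_one_add₀ hr]; congr 1; ring
    have a2 : r ^ ((-u + 1) ^ 2) = r * r ^ (u ^ 2 - 2 * u) := by
      rw [← zpow_one_add₀ hr]; congr 1; ring
    have a3 : (-u) ^ 2 - 2 * -u = u ^ 2 + 2 * u := by ring
    have a4 : (-u) ^ 2 + 2 * -u = u ^ 2 - 2 * u := by ring
    have a5 : r⁻¹ * r = 1 := inv_mul_cancel₀ hr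
    unfold wt chi
    rw [a1, a2, a3, a4]
    have hu : u % 3 = 0 ∨ u % 3 = 1 ∨ u % 3 = 2 := by omega
    rcases hu with hu | hu | hu
    · have b1 : -u % 3 = 0 := by omega
      have b2 : (u + 1) % 3 = 1 := by omega
      have b3 : (-u + 1) % 3 = 1 := by omega
      simp only [hu, b1, b2, b3]
      norm_num
      linear_combination (-r ^ (u ^ 2 + 2 * u) - r ^ (u ^ 2 - 2 * u)) * a5
    · have b1 : -u % 3 = 2 := by omega
      have b2 : (u + 1) % 3 = 2 := by omega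
      have b3 : (-u + 1) % 3 = 0 := by omega
      simp only [hu, b1, b2, b3]
      norm_num
      linear_combination (r ^ (u ^ 2 + 2 * u)) * a5 + r ^ (u ^ 2 + 2 * u) * hω
    · have b1 : -u % 3 = 1 := by omega
      have b2 : (u + 1) % 3 = 0 := by omega
      have b3 : (-u + 1) % 3 = 2 := by omega
      simp only [hu, b1, b2, b3]
      norm_num
      linear_combination (r ^ (u ^ 2 - 2 * u)) * a5 + r ^ (u ^ 2 - 2 * u) * hω
  have h2 : Lam (r ^ 12) L (fun u => r⁻¹ * (chi (u + 1) * r ^ ((u + 1) ^ 2))) =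
      r⁻¹ * Lam (r ^ 12) L (fun u => chi (u + 1) * r ^ ((u + 1) ^ 2)) := by
    unfold Lam
    rw [mul_sum]
    exact sum_congr rfl fun p _ => by ring
  rw [h1, h2, Lam_main r hr]
  field_simp
  ring

lemma coeff_eq (ω r : ℂ) (hω : ω ^ 3 = 1) (hr : r ≠ 0) (m j k t s : ℕ)
    (h : j + (t + s) + 2 * k = 3 * m) :
    ω ^ (k + t + 2 * (k + s)) * (r ^ 12) ^ (((m + 1).choose 2 : ℤ) + third j (k + t) (k + s)) =
      r ^ (24 * (m : ℤ) ^ 2 - 12 * m * (t + s + 2 * k) + 3 * (t + s + 2 * k) ^ 2 -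
        6 * (t + s + 2 * k)) * wt ω r ((t : ℤ) - s) := by
  have h3 := three_third m j (k + t) (k + s) (by omega)
  have c1 := two_choose j
  have c2 := two_choose (k + t)
  have c3 := two_choose (k + s)
  have c4 := two_choose (m + 1)
  have e1 : (j : ℤ) = 3 * m - t - s - 2 * k := by omega
  rw [pow_eq_pow_mod _ hω, ← zpow_natCast r 12, ← zpow_mul]
  unfold wt
  unfold gfun at h3
  push_cast at c2 c3 c4
  rw [e1] at c1
  have hu : ((t : ℤ) - s) % 3 = 0 ∨ ((t : ℤ) - s) % 3 = 1 ∨ ((t : ℤ) - s) % 3 = 2 := by omega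
  rcases hu with hu | hu | hu
  · have b : (k + t + 2 * (k + s)) % 3 = 0 := by omega
    rw [b] at h3 ⊢
    simp only [hu]
    norm_num at h3 ⊢
    rw [← zpow_add₀ hr]
    congr 1
    linear_combination 4 * h3 + 2 * c1 + 2 * c2 + 2 * c3 + 6 * c4
  · have b : (k + t + 2 * (k + s)) % 3 = 1 := by omega
    rw [b] at h3 ⊢
    simp only [hu]
    norm_num at h3 ⊢
    rw [mul_left_comm, ← zpow_add₀ hr]
    congr 2
    linear_combination 4 * h3 + 2 * c1 + 2 * c2 + 2 * c3 + 6 * c4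
  · have b : (k + t + 2 * (k + s)) % 3 = 2 := by omega
    rw [b] at h3 ⊢
    simp only [hu]
    norm_num at h3 ⊢
    rw [mul_left_comm, ← zpow_add₀ hr]
    congr 2
    linear_combination 4 * h3 + 2 * c1 + 2 * c2 + 2 * c3 + 6 * c4

lemma identC (ω q : ℂ) (hω : IsPrimitiveRoot ω 3) (hq : q ≠ 0) (m j L k : ℕ)
    (h : j + L + 2 * k = 3 * m) :
    q ^ (m * m) * ∑ p ∈ antidiagonal L, G q p.1 p.2 * (ω ^ (k + p.1 + 2 * (k + p.2)) *
        q ^ (((m + 1).choose 2 : ℤ) + third j (k + p.1) (k + p.2))) =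
      q ^ (m * j) * (mu q (L + k) * mu q k) := by
  obtain ⟨r, rfl⟩ := IsAlgClosed.exists_pow_nat_eq q (n := 12) (by norm_num)
  have hr : r ≠ 0 := fun h => hq (by rw [h]; norm_num)
  have hω1 : ω + ω ^ 2 = -1 := by
    have := hω.geom_sum_eq_zero (by norm_num)
    simp only [sum_range_succ, range_zero, sum_empty] at this
    linear_combination this
  have h1 : ∀ p ∈ antidiagonal L, G (r ^ 12) p.1 p.2 * (ω ^ (k + p.1 + 2 * (k + p.2)) *
        (r ^ 12) ^ (((m + 1).choose 2 : ℤ) + third j (k + p.1) (k + p.2))) =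
      r ^ (24 * (m : ℤ) ^ 2 - 12 * m * (L + 2 * k) + 3 * (L + 2 * k) ^ 2 - 6 * (L + 2 * k)) *
        (G (r ^ 12) p.1 p.2 * wt ω r ((p.1 : ℤ) - p.2)) := by
    intro p hp
    rw [HasAntidiagonal.mem_antidiagonal] at hp
    rw [coeff_eq ω r hω.pow_eq_one hr m j k p.1 p.2 (by omega), ← hp]
    push_cast
    ring
  have h2 := Lam_wt ω r hω1 hr L
  unfold Lam at h2
  rw [sum_congr rfl h1, ← mul_sum, h2]
  unfold mu
  have c1 := two_choose (L + k)
  have c2 := two_choose k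
  have e1 : (j : ℤ) = 3 * m - L - 2 * k := by omega
  have key : (r ^ 12) ^ (m * m) * r ^ (24 * (m : ℤ) ^ 2 - 12 * m * (L + 2 * k) +
      3 * (L + 2 * k) ^ 2 - 6 * (L + 2 * k)) * r ^ (3 * L ^ 2) =
      (r ^ 12) ^ (m * j) * (r ^ 12) ^ ((L + k).choose 2) * (r ^ 12) ^ (k.choose 2) := by
    simp only [← pow_mul]
    simp only [← zpow_natCast]
    simp only [← zpow_add₀ hr]
    congr 1
    push_cast at c1 ⊢
    rw [e1]
    linear_combination (-6) * c1 - 6 * c2
  have sg : ((-1 : ℂ)) ^ (L + k) * (-1) ^ k = (-1) ^ L := by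
    rw [pow_add, mul_assoc, ← pow_add, ← two_mul, pow_mul]; norm_num
  linear_combination (-1) ^ L * key - (r ^ 12) ^ (m * j) * (r ^ 12) ^ ((L + k).choose 2) *
    (r ^ 12) ^ (k.choose 2) * sg

lemma natCard_eq_sum {α : Type} [Fintype α] (P : α → Prop) [DecidablePred P] :
    (Nat.card {x // P x} : ℂ) = ∑ x, if P x then 1 else 0 := by
  rw [sum_boole, Nat.card_eq_fintype_card, Fintype.card_subtype]

theorem sigma_eq {F V : Type} [Field F] [Finite F] [AddCommGroup V] [Module F V] [Finite V]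
    (m : ℕ) (hn : finrank F V = 3 * m) (τ : V →ₗ[F] V) (ω : ℂ) (hω : IsPrimitiveRoot ω 3) :
    (sigma m τ : ℂ) = flagSum m τ ω ((m + 1).choose 2 : ℕ) := by
  have : Fintype F := Fintype.ofFinite F
  have : Fintype V := Fintype.ofFinite V
  have hU := universal τ m hn (fun j₁ j₂ j₃ => ω ^ (j₂ + 2 * j₃) *
    (Fintype.card F : ℂ) ^ (((m + 1).choose 2 : ℤ) + third j₁ j₂ j₃))
    (fun j L k h => identC ω _ hω q_ne_zero m j L k h)
  have hσ : (sigma m τ : ℂ) = ∑ U : Submodule F V,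
      if finrank F U = m ∧ U ⊔ U.map τ ⊔ U.map (τ ∘ₗ τ) = ⊤ then (1 : ℂ) else 0 := by
    unfold sigma
    rw [natCard_eq_sum]
    refine sum_congr rfl fun U _ => if_congr ?_ rfl rfl
    unfold IsDirectSum img dim
    rw [← Submodule.map_comp]
    refine ⟨fun h => ⟨h.1, h.2.2.2⟩, fun h => ⟨h.1, ?_⟩⟩
    have d1 := Submodule.finrank_sup_add_finrank_inf_eq U (U.map τ)
    have d2 := Submodule.finrank_sup_add_finrank_inf_eq (U ⊔ U.map τ) (U.map (τ ∘ₗ τ))
    have d3 := Submodule.finrank_map_le τ U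
    have d4 := Submodule.finrank_map_le (τ ∘ₗ τ) U
    rw [h.2, finrank_top, hn] at d2
    have d5 := h.1
    refine ⟨?_, ?_, h.2⟩
    · rw [disjoint_iff, ← Submodule.finrank_eq_zero]; omega
    · rw [disjoint_iff, ← Submodule.finrank_eq_zero]; omega
  rw [hσ, hU]
  unfold flagSum flagCount triples
  rw [Nat.card_eq_fintype_card (α := F)]
  simp only [natCard_eq_sum, mul_sum]
  symm
  rw [sum_comm, Fintype.sum_prod_type]
  symm
  refine sum_congr rfl fun S _ => ?_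
  rw [Fintype.sum_prod_type]
  refine sum_congr rfl fun X _ => ?_
  rw [sum_eq_single ⊤]
  · by_cases h : S.map τ ≤ S ∧ S ≤ X ∧ X.map τ ≤ X
    · have d1 : finrank F S ≤ finrank F X := Submodule.finrank_mono h.2.1
      have d2 : finrank F X ≤ 3 * m := (Submodule.finrank_le X).trans hn.le
      rw [if_pos h, sum_eq_single (finrank F S, finrank F X - finrank F S, 3 * m - finrank F X)]
      · rw [if_pos, mul_one]
        unfold IsFlag img dim
        refine ⟨h.2.1, le_top, h.1, h.2.2, le_top, rfl, by simp only; omega, ?_⟩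
        simp only [finrank_top, hn]; omega
      · intro j hj hne
        rw [if_neg, mul_zero]
        unfold IsFlag img dim
        rintro ⟨-, -, -, -, -, a, b, c⟩
        simp only [finrank_top, hn] at a b c
        apply hne
        ext <;> simp only <;> omega
      · intro hj
        exfalso
        apply hj
        simp only [mem_filter, mem_product, mem_range]
        omega
    · rw [if_neg h]
      refine (sum_eq_zero fun j _ => ?_).symm
      rw [if_neg, mul_zero]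
      rintro ⟨a, -, b, c, -⟩
      exact h ⟨b, a, c⟩
  · intro Z _ hZ
    refine sum_eq_zero fun j hj => ?_
    rw [if_neg, mul_zero]
    unfold IsFlag img dim
    rintro ⟨-, -, -, -, -, a, b, c⟩
    simp only [mem_filter] at hj
    simp only at a b c
    exact hZ (Submodule.eq_top_of_finrank_eq (by omega))
  · simp

theorem sigma_eq_matrix {F : Type} [Field F] [Finite F] (m : ℕ)
    (T : Matrix (Fin (3 * m)) (Fin (3 * m)) F) (ω : ℂ) (hω : IsPrimitiveRoot ω 3) :
    (sigma m (Matrix.toLin' T) : ℂ) = flagSum m (Matrix.toLin' T) ω ((m + 1).choose 2 : ℕ) :=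
  sigma_eq m (by simp) _ ω hω

end Pool.Agent.H370Z.Split
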