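import Mathlib
import Pool.Agent.H370Z.Split.Final

set_option autoImplicit false

open Finset Module

namespace Pool.Agent.H370Z.Split

lemma flagSum_shift {F V : Type} [Field F] [Finite F] [AddCommGroup V] [Module F V] (m : ℕ)
    (T : V →ₗ[F] V) (ω : ℂ) (a b : ℤ) :
    flagSum m T ω (a + b) = (Nat.card F : ℂ) ^ b * flagSum m T ω a := by
  have hq : (Nat.card F : ℂ) ≠ 0 := by exact_mod_cast Nat.card_pos.ne'
  unfold flagSum
  rw [mul_sum]
  refine sum_congr rfl fun j _ => ?_
  rw [show a + b + third j.1 j.2.1 j.2.2 = b + (a + third j.1 j.2.1 j.2.2) by ring, zpow_add₀ hq]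
  ring

theorem literal_iff {F V : Type} [Field F] [Finite F] [AddCommGroup V] [Module F V] [Finite V]
    (m : ℕ) (hn : finrank F V = 3 * m) (T : V →ₗ[F] V) (ω : ℂ) (hω : IsPrimitiveRoot ω 3) :
    (sigma m T : ℂ) = flagSum m T ω ((m : ℤ) ^ 2 - m) ↔ m = 0 ∨ m = 3 ∨ sigma m T = 0 := by
  have h1 := flagSum_shift m T ω ((m + 1).choose 2 : ℕ) ((m : ℤ) ^ 2 - m - ((m + 1).choose 2 : ℕ))
  rw [add_sub_cancel, ← sigma_eq m hn T ω hω] at h1
  rw [h1]
  have c := two_choose (m + 1)
  push_cast at c
  have hq : (1 : ℝ) < Nat.card F := by exact_mod_cast Finite.one_lt_card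
  constructor
  · intro h
    by_cases h0 : sigma m T = 0
    · exact Or.inr (Or.inr h0)
    · have h2 : (sigma m T : ℂ) ≠ 0 := by exact_mod_cast h0
      have h3 : (Nat.card F : ℂ) ^ ((m : ℤ) ^ 2 - m - ((m + 1).choose 2 : ℕ)) = 1 :=
        mul_right_cancel₀ h2 (by rw [← h, one_mul])
      have h4 : (Nat.card F : ℝ) ^ ((m : ℤ) ^ 2 - m - ((m + 1).choose 2 : ℕ)) = 1 := by
        apply Complex.ofReal_injective
        rw [Complex.ofReal_zpow, Complex.ofReal_natCast, h3, Complex.ofReal_one]
      have h5 := (zpow_eq_one_iff_right₀ (by linarith) hq.ne').mp h4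
      have h6 : (m : ℤ) * (m - 3) = 0 := by linear_combination 2 * h5 + c
      rcases mul_eq_zero.mp h6 with h | h
      · left; omega
      · right; left; omega
  · rintro (h | h | h)
    · subst h; simp
    · subst h; norm_num [Nat.choose]
    · simp [h]

/-- The block shift `e_i ↦ e_{i+m}`. -/
def shiftMat (F : Type) [Field F] (m : ℕ) : Matrix (Fin (3 * m)) (Fin (3 * m)) F :=
  Matrix.of fun i j => if i.val = j.val + m then 1 else 0

lemma shift_single (F : Type) [Field F] (m : ℕ) (j : Fin (3 * m)) (h : j.val + m < 3 * m) :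
    Matrix.toLin' (shiftMat F m) (Pi.single j 1) = Pi.single ⟨j.val + m, h⟩ 1 := by
  ext i
  simp [shiftMat, Matrix.toLin'_apply, Pi.single_apply, Fin.ext_iff]

theorem sigma_shift_ne_zero (F : Type) [Field F] [Finite F] (m : ℕ) :
    sigma m (Matrix.toLin' (shiftMat F m)) ≠ 0 := by
  unfold sigma IsDirectSum img dim
  set τ := Matrix.toLin' (shiftMat F m) with hτ
  simp only [← Submodule.map_comp]
  let b : Fin m → (Fin (3 * m) → F) := fun i => Pi.single ⟨i.val, by omega⟩ 1
  let U : Submodule F (Fin (3 * m) → F) := Submodule.span F (Set.range b)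
  have hb : ∀ i, b i ∈ U := fun i => Submodule.subset_span ⟨i, rfl⟩
  have htop : U ⊔ U.map τ ⊔ U.map (τ ∘ₗ τ) = ⊤ := by
    rw [eq_top_iff, ← (Pi.basisFun F (Fin (3 * m))).span_eq, Submodule.span_le]
    rintro _ ⟨i, rfl⟩
    rw [Pi.basisFun_apply, SetLike.mem_coe]
    by_cases h1 : i.val < m
    · exact Submodule.mem_sup_left (Submodule.mem_sup_left (hb ⟨i.val, h1⟩))
    · by_cases h2 : i.val < 2 * m
      · refine Submodule.mem_sup_left (Submodule.mem_sup_right
          ⟨b ⟨i.val - m, by omega⟩, hb _, ?_⟩)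
        simp only [b, hτ]
        rw [shift_single F m _ (by simp only; omega)]
        congr 2; simp only; omega
      · refine Submodule.mem_sup_right ⟨b ⟨i.val - 2 * m, by omega⟩, hb _, ?_⟩
        simp only [b, hτ, LinearMap.comp_apply]
        rw [shift_single F m _ (by simp only; omega), shift_single F m _ (by simp only; omega)]
        congr 2; simp only; omega
  have d0 : finrank F U ≤ m := by
    have := finrank_range_le_card (R := F) b
    simpa [Set.finrank] using this
  have d1 := Submodule.finrank_sup_add_finrank_inf_eq U (U.map τ)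
  have d2 := Submodule.finrank_sup_add_finrank_inf_eq (U ⊔ U.map τ) (U.map (τ ∘ₗ τ))
  have d3 := Submodule.finrank_map_le τ U
  have d4 := Submodule.finrank_map_le (τ ∘ₗ τ) U
  have hn : finrank F (Fin (3 * m) → F) = 3 * m := by simp
  rw [htop, finrank_top, hn] at d2
  refine Nat.card_ne_zero.mpr ⟨⟨⟨U, by omega, ?_, ?_, htop⟩⟩, inferInstance⟩
  · rw [disjoint_iff, ← Submodule.finrank_eq_zero]; omega
  · rw [disjoint_iff, ← Submodule.finrank_eq_zero]; omega

theorem literal_all_iff (F : Type) [Field F] [Finite F] (m : ℕ) (ω : ℂ)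
    (hω : IsPrimitiveRoot ω 3) :
    (∀ T : Matrix (Fin (3 * m)) (Fin (3 * m)) F,
      (sigma m (Matrix.toLin' T) : ℂ) = flagSum m (Matrix.toLin' T) ω ((m : ℤ) ^ 2 - m)) ↔
      m = 0 ∨ m = 3 := by
  constructor
  · intro h
    rcases (literal_iff m (by simp) _ ω hω).mp (h (shiftMat F m)) with h | h | h
    · exact Or.inl h
    · exact Or.inr h
    · exact absurd h (sigma_shift_ne_zero F m)
  · intro h T
    rw [literal_iff m (by simp) _ ω hω]
    tauto

end Pool.Agent.H370Z.Split
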